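import Pool.Agent.Helper71.Sos.T2.D0
import Pool.Agent.Helper71.Sos.T2.D1
import Pool.Agent.Helper71.Sos.T2.D2

/-!
The integral means from the certificate, `κ = 337 / 100`.
-/

set_option autoImplicit false
open Complex MeasureTheory Metric Set
open scoped Real

namespace Pool.Sos71.T2

open Pool.Sos71 Pool.Agent.Helper69.EK6
open Pool.Agent.Helper69.EK3 (InOk OutOk)
open Pool.Agent.Helper69.EK3.Dat (SideOk)

theorem absB (a b : ℝ) : |a| ≤ b ↔ a ≤ b ∧ -a ≤ b := abs_le'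

theorem cOk : c.Ok2 (73 / 500) (-97 / 1000) (643 / 500) (-187 / 1000) (-143 / 500) (373 / 1000) (-77 / 500) (12 / 25) (-147 / 1000) (13 / 25) 1 1 3 1 where
  wf := by decide +kernel
  M0 := by decide +kernel
  lam0 := by decide +kernel
  c10 := by decide +kernel
  fi := by constructor <;> simp only [c] <;> norm_num
  fo := by constructor <;> simp only [c] <;> norm_num
  Ld0 := by norm_num
  Ld0' := by norm_num
  inn := by constructor <;> norm_num [abs_of_nonneg, abs_of_neg, abs_of_pos, abs_of_nonpos]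
  out := by constructor <;> norm_num [abs_of_nonneg, abs_of_neg, abs_of_pos, abs_of_nonpos]

theorem hIn : Side c.K 1 1 c.tIn := by
  refine Side.of_pos fun x h1 h2 _ h3 h4 => ?_
  refine sos_posW D0.ok x ?_
  have g1 : 0 ≤ x.b * (x.c - x.b) := mul_nonneg h1 (by linarith)
  have g2 : 0 ≤ x.a * (1 - 1 * x.a) := mul_nonneg h3 (by push_cast at h4; linarith)
  intro b hb
  simp only [D0.cert, List.mem_cons, List.not_mem_nil, or_false] at hb
  rcases hb with rfl | rfl | rfl | rfl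
  · simp [D0.b0, Ex.re]
  · simp only [D0.b1, Ex.re]
    push_cast
    nlinarith
  · simp only [D0.b2, Ex.re]
    push_cast
    nlinarith
  · simp only [D0.b3, Ex.re]
    push_cast
    nlinarith [mul_nonneg g1 g2]

theorem hOut : Side c.K 3 1 c.tOut := by
  have hs : (0 : ℝ) < D1.cert.s := by
    have : 0 < D1.cert.s := by decide +kernel
    exact_mod_cast this
  have hbk : bokW D1.cert.k D1.cert.r D1.cert.N D1.cert.blocks = true := by
    have h := D1.ok
    simp only [Cert.checkW, Bool.and_eq_true] at h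
    exact h.1.1.2
  have hbl : D1.cert.blocks = [D1.b0, D1.b1, D1.b2, D1.b3, D1.b4] := rfl
  rw [hbl] at hbk
  simp only [bokW, Bool.and_eq_true] at hbk
  obtain ⟨⟨k0, _⟩, ⟨k1, _⟩, ⟨k2, _⟩, ⟨k3, _⟩, ⟨k4, _⟩, _⟩ := hbk
  have hit : Bdd.itb 2 D1.b4.its = true := by decide +kernel
  obtain ⟨C, hC, hC'⟩ := Bdd.q_bd k4 hit (L := 3) (by norm_num)
  refine ⟨C / D1.cert.s, fun x h1 h2 h5 h3 h4 => ?_⟩
  have g1 : 0 ≤ x.b * (x.c - x.b) := mul_nonneg h1 (by linarith)
  have g2 : 0 ≤ x.a * (3 - 1 * x.a) := mul_nonneg h3 (by push_cast at h4; linarith)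
  have hc0 : 0 ≤ x.c := h1.trans h2
  have hd : Bdd.Dom0 3 x := by
    refine ⟨⟨h3, by push_cast at h4; linarith⟩, ?_, ?_⟩
    · rw [abs_of_nonneg h1]
      nlinarith [sq_nonneg x.c]
    · rw [abs_of_nonneg hc0]
      nlinarith [sq_nonneg x.b]
  have e := Cert.soundW D1.ok x
  rw [hbl] at e
  have ht : D1.cert.target = c.tOut := rfl
  rw [ht] at e
  simp only [brs] at e
  have q0 := Blk.q_nonnegW k0 x
  have q1 := Blk.q_nonnegW k1 x
  have q2 := Blk.q_nonnegW k2 x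
  have q3 := Blk.q_nonnegW k3 x
  have q4 := Blk.q_nonnegW k4 x
  have m0 : 0 ≤ D1.b0.mult.re x := by simp [D1.b0, Ex.re]
  have m1 : 0 ≤ D1.b1.mult.re x := by
    simp only [D1.b1, Ex.re]
    push_cast
    nlinarith
  have m2 : 0 ≤ D1.b2.mult.re x := by
    simp only [D1.b2, Ex.re]
    push_cast
    nlinarith
  have m3 : 0 ≤ D1.b3.mult.re x := by
    simp only [D1.b3, Ex.re]
    push_cast
    nlinarith [mul_nonneg g1 g2]
  have hm4 : D1.b4.mult.re x = (eDi 1).re x := rfl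
  rw [hm4] at e
  have p0 := mul_nonneg m0 q0
  have p1 := mul_nonneg m1 q1
  have p2 := mul_nonneg m2 q2
  have p3 := mul_nonneg m3 q3
  refine ⟨D1.b4.q x / D1.cert.s, 0, div_nonneg q4 hs.le, ?_, le_rfl, ?_, ?_⟩
  · rw [div_mul_eq_mul_div]
    exact div_le_div_of_nonneg_right (hC' x hd) hs.le
  · positivity
  · rw [zero_mul, add_zero, div_mul_eq_mul_div, div_le_iff₀ hs]
    linarith

theorem hCen (x : Pnt) (h : 0 ≤ -2 * x.f - x.f ^ 2 - x.g ^ 2) : 0 ≤ (Ex.bp c.cen).re x := by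
  refine sos_posW D2.ok x ?_
  intro b hb
  simp only [D2.cert, List.mem_cons, List.not_mem_nil, or_false] at hb
  rcases hb with rfl | rfl | rfl | rfl
  · simp [D2.b0, Ex.re]
  · simp [D2.b1, Ex.re]
  · simp only [D2.b2, Ex.re]
    push_cast
    nlinarith
  · simp only [D2.b3, Ex.re]
    push_cast
    nlinarith

theorem moments (p : ℝ) (hp : 337 / 100 ≤ p) : ∃ C : ℝ, ∀ ψ : ℂ → ℂ,
    DifferentiableOn ℂ ψ {z : ℂ | 1 < ‖z‖} → InjOn ψ {z : ℂ | 1 < ‖z‖} →
    (∃ b : ℂ, Filter.Tendsto (fun z => ψ z - z) (Bornology.cobounded ℂ) (nhds b)) →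
    ∀ R : ℝ, 1 < R →
      (2 * π)⁻¹ * (∫ θ in (0:ℝ)..(2 * π), ‖deriv ψ (R * Complex.exp (θ * I))‖ ^ (-p)) ≤
        C * (R ^ 2 / (R ^ 2 - 1)) ^ (p - 1) := by
  refine cOk.moments hIn hOut hCen (κ := 337 / 100) (by norm_num) ?_ p hp
  have h : (c.lam : ℝ) + c.c1 + (c.c1 + 2 * |(c.a2 : ℝ)|) / 10 ^ 7 <
      2 * (337 / 100) * c.M := by
    simp only [c]
    norm_num
  exact h

end Pool.Sos71.T2
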